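import Pool.Agent.Helper26.MCE.GoalsB

/-!
# Packet MCE-DET: detection
-/

set_option autoImplicit false

namespace Pool.Agent.Helper33.MCE

open Finset Pointwise Pool.Agent.Helper87.MC Pool.Agent.Helper26.MCE

section aux

variable {G : Type} [AddCommGroup G] [Fintype G]

open Classical in
theorem natCard_sub (K : AddSubgroup G) :
    Nat.card K = ((univ : Finset G).filter fun h => h ∈ K).card := by
  rw [Nat.card_eq_fintype_card, Fintype.card_subtype]

/-- Averaging over cosets. -/
theorem avg (E : Finset G) (K : AddSubgroup G) (hE : Per E K) (Q : G → Prop) [DecidablePred Q]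
    (q : ℝ) (h : ∀ b ∈ E, ∃ S : Finset G, (∀ h ∈ K, Q (b + h) → h ∈ S) ∧ (S.card : ℝ) ≤ q) :
    ((E.filter Q).card : ℝ) * Nat.card K ≤ q * E.card := by
  classical
  have h1 : ∀ h ∈ K, (E.filter fun b => Q (b + h)).card = (E.filter Q).card := by
    intro k hk
    refine Finset.card_nbij' (fun b => b + k) (fun b => b - k) ?_ ?_ ?_ ?_
    · intro b hb
      simp only [coe_filter, Set.mem_ofPred_eq] at hb ⊢
      exact ⟨hE b hb.1 k hk, hb.2⟩
    · intro b hb
      simp only [coe_filter, Set.mem_ofPred_eq] at hb ⊢
      refine ⟨?_, ?_⟩
      · rw [sub_eq_add_neg]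
        exact hE b hb.1 _ (K.neg_mem hk)
      · rw [sub_add_cancel]
        exact hb.2
    · intro b _
      simp
    · intro b _
      simp
  have h2 : ∑ b ∈ E, ((univ : Finset G).filter fun h => h ∈ K ∧ Q (b + h)).card =
      (E.filter Q).card * Nat.card K := by
    have h3 : ∀ b ∈ E, ((univ : Finset G).filter fun h => h ∈ K ∧ Q (b + h)).card =
        ∑ h ∈ (univ : Finset G).filter (fun h => h ∈ K), if Q (b + h) then 1 else 0 := by
      intro b _
      rw [← Finset.filter_filter, Finset.card_filter]
    rw [Finset.sum_congr rfl h3, Finset.sum_comm]
    have h4 : ∀ k ∈ (univ : Finset G).filter (fun h => h ∈ K),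
        (∑ b ∈ E, if Q (b + k) then 1 else 0) = (E.filter Q).card := by
      intro k hk
      rw [← Finset.card_filter]
      exact h1 k (Finset.mem_filter.mp hk).2
    rw [Finset.sum_congr rfl h4, Finset.sum_const, natCard_sub, smul_eq_mul, mul_comm]
  have h5 : ((∑ b ∈ E, ((univ : Finset G).filter fun h => h ∈ K ∧ Q (b + h)).card : ℕ) : ℝ) ≤
      ∑ _b ∈ E, q := by
    push_cast
    refine Finset.sum_le_sum fun b hb => ?_
    obtain ⟨S, hS, hSq⟩ := h b hb
    refine le_trans ?_ hSq
    have : ((univ : Finset G).filter fun h => h ∈ K ∧ Q (b + h)).card ≤ S.card :=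
      Finset.card_le_card fun x hx => hS x (Finset.mem_filter.mp hx).2.1
        (Finset.mem_filter.mp hx).2.2
    exact_mod_cast this
  rw [h2] at h5
  push_cast at h5
  rw [Finset.sum_const, nsmul_eq_mul] at h5
  linarith

omit [Fintype G] in
theorem NF_congr (D : Finset G) (K : AddSubgroup G) {x y : G} (hxy : y - x ∈ K) (h : NF D K x) :
    NF D K y := by
  obtain ⟨k, hk, hkD⟩ := h
  refine ⟨k - (y - x), K.sub_mem hk hxy, ?_⟩
  have : y + (k - (y - x)) = x + k := by abel
  rw [this]
  exact hkD

theorem mem_full_iff (D : Finset G) (K : AddSubgroup G) (x : G) :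
    x ∈ full D K ↔ ∀ h ∈ K, x + h ∈ D := by
  classical
  unfold full
  rw [Finset.mem_filter]
  constructor
  · exact fun h => h.2
  · intro h
    refine ⟨?_, h⟩
    have := h 0 K.zero_mem
    rwa [add_zero] at this

theorem not_full_iff (D : Finset G) (K : AddSubgroup G) (x : G) :
    x ∉ full D K ↔ NF D K x := by
  rw [mem_full_iff]
  unfold NF
  push Not
  rfl

theorem full_sub (D : Finset G) (K : AddSubgroup G) {x : G} (h : x ∈ full D K) : x ∈ D := by
  have := (mem_full_iff D K x).mp h 0 K.zero_mem
  rwa [add_zero] at this

theorem full_add (D : Finset G) (K : AddSubgroup G) {x k : G} (h : x ∈ full D K) (hk : k ∈ K) :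
    x + k ∈ full D K := by
  rw [mem_full_iff] at h ⊢
  intro h' hh'
  rw [add_assoc]
  exact h _ (K.add_mem hk hh')

theorem full_mono (D : Finset G) {K K' : AddSubgroup G} (hK : K' ≤ K) {x : G}
    (h : x ∈ full D K) : x ∈ full D K' := by
  rw [mem_full_iff] at h ⊢
  exact fun k hk => h k (hK hk)

/-- Greedy choice of representatives. -/
theorem greedy {α β : Type} [DecidableEq α] [DecidableEq β] (D : Finset α) (T : α → Finset β)
    (cls : α → ℕ) (hne : Nonempty β)
    (hdisj : ∀ d ∈ D, ∀ d' ∈ D, cls d ≠ cls d' → Disjoint (T d) (T d'))
    (hcard : ∀ d ∈ D, (D.filter fun d' => cls d' = cls d).card ≤ (T d).card) :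
    ∃ φ : α → β, (∀ d ∈ D, φ d ∈ T d) ∧ ∀ d ∈ D, ∀ d' ∈ D, φ d = φ d' → d = d' := by
  have key : ∀ S : Finset α, S ⊆ D → ∃ φ : α → β, (∀ d ∈ S, φ d ∈ T d) ∧
      ∀ d ∈ S, ∀ d' ∈ S, φ d = φ d' → d = d' := by
    intro S
    induction S using Finset.induction_on with
    | empty =>
      intro _
      exact ⟨fun _ => hne.some, by simp, by simp⟩
    | insert a S ha ih =>
      intro hS
      have haD : a ∈ D := hS (Finset.mem_insert_self _ _)
      have hSD : S ⊆ D := fun x hx => hS (Finset.mem_insert_of_mem hx)
      obtain ⟨φ, h1, h2⟩ := ih hSD
      have h3 : ∃ v ∈ T a, v ∉ (S.filter fun d' => cls d' = cls a).image φ := by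
        apply Finset.exists_mem_notMem_of_card_lt_card
        calc ((S.filter fun d' => cls d' = cls a).image φ).card
            ≤ (S.filter fun d' => cls d' = cls a).card := Finset.card_image_le
          _ < (D.filter fun d' => cls d' = cls a).card := by
            apply Finset.card_lt_card
            refine ⟨Finset.filter_subset_filter _ hSD, ?_⟩
            intro hsub
            have : a ∈ S.filter fun d' => cls d' = cls a :=
              hsub (Finset.mem_filter.mpr ⟨haD, rfl⟩)
            exact ha (Finset.mem_filter.mp this).1
          _ ≤ _ := hcard a haD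
      obtain ⟨v, hv, hvn⟩ := h3
      have hvφ : ∀ d ∈ S, φ d ≠ v := by
        intro d hd hdv
        by_cases hcl : cls d = cls a
        · exact hvn (Finset.mem_image.mpr ⟨d, Finset.mem_filter.mpr ⟨hd, hcl⟩, hdv⟩)
        · exact Finset.disjoint_left.mp (hdisj d (hSD hd) a haD hcl) (h1 d hd) (hdv ▸ hv)
      have hneS : ∀ d ∈ S, d ≠ a := by
        rintro d hd rfl
        exact ha hd
      refine ⟨Function.update φ a v, ?_, ?_⟩
      · intro d hd
        rcases Finset.mem_insert.mp hd with rfl | hd
        · rw [Function.update_self]
          exact hv
        · rw [Function.update_of_ne (hneS d hd)]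
          exact h1 d hd
      · intro d hd d' hd' hdd
        rcases Finset.mem_insert.mp hd with hda | hdS
        · rcases Finset.mem_insert.mp hd' with hda' | hdS'
          · rw [hda, hda']
          · rw [hda, Function.update_self, Function.update_of_ne (hneS d' hdS')] at hdd
            exact absurd hdd.symm (hvφ d' hdS')
        · rcases Finset.mem_insert.mp hd' with hda' | hdS'
          · rw [hda', Function.update_self, Function.update_of_ne (hneS d hdS)] at hdd
            exact absurd hdd (hvφ d hdS)
          · rw [Function.update_of_ne (hneS d hdS), Function.update_of_ne (hneS d' hdS')] at hdd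
            exact h2 d hdS d' hdS' hdd
  exact key D (Finset.Subset.refl D)

end aux

open Classical in
theorem goalDET (h1 : G_POS) (h2 : G_DC) : G_DET := by
  intro G _ _ s V _ D K f B ρ ρh t L2 c ty m ω hC hF hρ ht hσ h2t hDne hDu hs hG
  have hposK := (h1 G s V K c hC.anti hF.ref).1 ω hG.mem
  have hdc := h2 G s V D K f B ρ ρh t L2 c ty m (fun j => (lab D K j).card) hC hF hρ ω hG.mem
  have ht0 : 0 < t := by linarith
  have hfull0 : ∀ x, x ∉ full D (K 0) := by
    intro x hx
    rw [mem_full_iff] at hx
    apply hDu
    rw [Finset.eq_univ_iff_forall]
    intro y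
    have := hx (y - x) (by rw [hC.K0]; trivial)
    rwa [add_sub_cancel] at this
  have hfulls : ∀ x ∈ D, x ∈ full D (K s) := by
    intro x hx
    rw [mem_full_iff]
    intro h hh
    rw [hC.Ks, AddSubgroup.mem_bot] at hh
    rw [hh, add_zero]
    exact hx
  have hlab : ∀ d : G, ∃ j, d ∈ D → j < s ∧ d ∈ lab D K j := by
    intro d
    by_cases hd : d ∈ D
    · have hex : ∃ i, d ∈ full D (K i) := ⟨s, hfulls d hd⟩
      have hfind := Nat.find_spec hex
      have hpos' : Nat.find hex ≠ 0 := by
        intro h0
        rw [h0] at hfind
        exact hfull0 d hfind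
      refine ⟨Nat.find hex - 1, fun _ => ⟨?_, ?_⟩⟩
      · have := Nat.find_min' hex (hfulls d hd)
        omega
      · unfold lab
        rw [Finset.mem_sdiff]
        refine ⟨?_, Nat.find_min hex (by omega)⟩
        have : Nat.find hex - 1 + 1 = Nat.find hex := by omega
        rw [this]
        exact hfind
    · exact ⟨0, fun h => absurd h hd⟩
  choose J hJ using hlab
  set T : G → Finset V := fun d => (univ : Finset V).filter fun v =>
    ty v = J d ∧ ¬ Del D K B t c ty ω v ∧ ¬ BadMark D c ω d v with hT
  have hVne : Nonempty V := by
    have h3 := (hF.enough 0 (by omega)).2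
    obtain ⟨v, -⟩ := Finset.card_pos.mp (Nat.lt_of_lt_of_le Nat.zero_lt_one h3)
    exact ⟨v⟩
  obtain ⟨φ, hφT, hφinj⟩ := greedy D T J hVne (by
      intro d _ d' _ hne
      rw [Finset.disjoint_left]
      intro v hv hv'
      simp only [hT, Finset.mem_filter] at hv hv'
      exact hne (hv.2.1.symm.trans hv'.2.1)) (by
      intro d hd
      obtain ⟨hjs, hjl⟩ := hJ d hd
      have e1 : (D.filter fun d' => J d' = J d).card ≤ (lab D K (J d)).card := by
        apply Finset.card_le_card
        intro d' hd'
        rw [Finset.mem_filter] at hd'
        rw [← hd'.2]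
        exact (hJ d' hd'.1).2
      have e2 := (hF.enough (J d) hjs).1
      have e3 := hG.del (J d) hjs
      have e4 := hG.mark (J d) hjs d hjl
      have e5 : ((univ : Finset V).filter fun v => ty v = J d).card ≤ (T d).card +
          ((univ : Finset V).filter fun v => ty v = J d ∧ Del D K B t c ty ω v).card +
          ((univ : Finset V).filter fun v => ty v = J d ∧ BadMark D c ω d v).card := by
        refine le_trans (Finset.card_le_card ?_) ((Finset.card_union_le _ _).trans
          (Nat.add_le_add_right (Finset.card_union_le _ _) _))
        intro v hv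
        rw [Finset.mem_filter] at hv
        by_cases hd1 : Del D K B t c ty ω v
        · exact Finset.mem_union_left _ (Finset.mem_union_right _
            (Finset.mem_filter.mpr ⟨Finset.mem_univ _, hv.2, hd1⟩))
        · by_cases hd2 : BadMark D c ω d v
          · exact Finset.mem_union_right _
              (Finset.mem_filter.mpr ⟨Finset.mem_univ _, hv.2, hd2⟩)
          · exact Finset.mem_union_left _ (Finset.mem_union_left _
              (Finset.mem_filter.mpr ⟨Finset.mem_univ _, hv.2, hd1, hd2⟩))
      omega)
  have hty : ∀ d ∈ D, ty (φ d) = J d := fun d hd => (Finset.mem_filter.mp (hφT d hd)).2.1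
  have hdel : ∀ d ∈ D, ¬ Del D K B t c ty ω (φ d) :=
    fun d hd => (Finset.mem_filter.mp (hφT d hd)).2.2.1
  have hbad : ∀ d ∈ D, ¬ BadMark D c ω d (φ d) :=
    fun d hd => (Finset.mem_filter.mp (hφT d hd)).2.2.2
  set F : Set G := {y | ∃ d ∈ D, ∃ e ∈ D, e ≠ d ∧ y = pos c ω (φ d) + e} with hFdef
  have hA : ∀ d ∈ D, pos c ω (φ d) + d ∉ F := by
    rintro d hd ⟨d', hd', e, he, hne, heq⟩
    apply hbad d hd
    refine ⟨φ d', ?_, ?_⟩
    · intro h
      have hdd := hφinj d' hd' d hd h
      rw [hdd] at heq hne
      exact hne (add_left_cancel heq).symm
    · show pos c ω (φ d) + d - pos c ω (φ d') ∈ D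
      rw [heq, add_sub_cancel_left]
      exact he
  have hcov : ∀ y ∈ F, ∃ d ∈ D, Cov D c ω (φ d) y := by
    rintro y ⟨d, hd, e, he, -, rfl⟩
    refine ⟨d, hd, ?_⟩
    show pos c ω (φ d) + e - pos c ω (φ d) ∈ D
    rw [add_sub_cancel_left]
    exact he
  have hB : ∀ g, ∃ e ∈ D, g + e ∉ F := by
    intro g
    by_contra hcon
    push Not at hcon
    have claim : ∀ i, i ≤ s → ∃ d₀ ∈ D, i ≤ ty (φ d₀) ∧ pos c ω (φ d₀) - g ∈ K i := by
      intro i
      induction i with
      | zero =>
        intro _
        obtain ⟨d₀, hd₀⟩ := hDne
        refine ⟨d₀, hd₀, Nat.zero_le _, ?_⟩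
        rw [hC.K0]
        trivial
      | succ i ih =>
        intro his
        obtain ⟨d₀, hd₀, hi₀, hg₀⟩ := ih (by omega)
        have his' : i < s := by omega
        have hBpos : 0 < ((B i).card : ℝ) := by
          exact_mod_cast Finset.card_pos.mpr (hC.Bne i his')
        have hBD : ∀ b ∈ B i, b ∈ D := fun b hb => full_sub D _ (hC.Bsub i his' b hb).1
        have hBper : Per (B i) (K (i + 1)) := by
          intro b hb h hh
          refine hC.Bsat i his' b hb _ (full_add D _ (hC.Bsub i his' b hb).1 hh) ?_
          rw [add_sub_cancel_left]
          exact hC.anti i his' hh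
        have hKpos : 0 < (Nat.card (K (i + 1)) : ℝ) := by
          have : 0 < Nat.card (K (i + 1)) := Nat.card_pos
          exact_mod_cast this
        have hhit : ∀ v, hit D (B i) c ω g v =
            ((B i).filter fun b => g - pos c ω v + b ∈ D).card := by
          intro v
          unfold hit Cov
          congr 1
          ext b
          simp only [Finset.mem_filter]
          have : g + b - pos c ω v = g - pos c ω v + b := by abel
          rw [this]
        have hB1 : ∀ d ∈ D, ((B i).card : ℝ) < t * hit D (B i) c ω g (φ d) →
            c i (φ d) = c i (φ d₀) := by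
          intro d hd hP
          by_contra hne
          have hi1 : 1 ≤ i := by
            rcases Nat.eq_zero_or_pos i with h0 | h0
            · exfalso
              apply hne
              rw [h0]
              exact hF.c0 _ _
            · exact h0
          apply hdel d hd
          right
          refine ⟨i, hi1, his', φ d₀, hi₀, fun h => hne h.symm, ?_⟩
          unfold pop
          rw [Finset.mem_filter]
          refine ⟨Finset.mem_univ _, g - pos c ω (φ d), ?_, ?_⟩
          · have : g - pos c ω (φ d) - (pos c ω (φ d₀) - pos c ω (φ d)) =
                -(pos c ω (φ d₀) - g) := by abel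
            rw [this]
            exact (K i).neg_mem hg₀
          · rw [hhit] at hP
            exact hP.le
        have hB2 : ∃ d ∈ D, ((B i).card : ℝ) < t * hit D (B i) c ω g (φ d) := by
          by_contra hno
          push Not at hno
          have hld : 2 * ((B i).filter fun b => ∃ v',
              ¬ Own c f (fun i => Nat.card (K i)) ρ i (φ d₀) v' ∧
              t * (hit D (B i) c ω g v' : ℝ) ≤ (B i).card ∧
              Cov D c ω v' (g + b)).card ≤ (B i).card := by
            by_contra hlt
            push Not at hlt
            exact hG.ld i his' (φ d₀) g ⟨hg₀, hlt⟩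
          have hS2 : 4 * (((B i).filter fun b => ∃ d ∈ D,
              Own c f (fun i => Nat.card (K i)) ρ i (φ d₀) (φ d) ∧
              Cov D c ω (φ d) (g + b)).card : ℝ) ≤ (B i).card := by
            by_cases hex : ∃ d₁ ∈ D, Own c f (fun i => Nat.card (K i)) ρ i (φ d₀) (φ d₁)
            · obtain ⟨d₁, hd₁, hown⟩ := hex
              have hup : ∀ v', c i v' = c i (φ d₀) → c (i + 1) v' = c (i + 1) (φ d₀) := by
                rcases hF.up (φ d₀) i his' with h3 | h3
                · exact absurd h3 (not_le.mpr hown.2)
                · exact h3
              set σ' : ℝ := ∑ i ∈ Ico (i + 1) s, ρ i with hσ'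
              have hσ0 : 0 ≤ σ' := Finset.sum_nonneg fun i _ => (hρ i).le
              have hσ8 : σ' ≤ 1 / 8 := by
                refine le_trans ?_ hσ
                refine Finset.sum_le_sum_of_subset_of_nonneg ?_ (fun i _ _ => (hρ i).le)
                intro k hk
                rw [Finset.mem_Ico] at hk
                exact Finset.mem_range.mpr hk.2
              have hav := avg (B i) (K (i + 1)) hBper
                (fun b => NF D (K (i + 1)) (g + b - pos c ω (φ d₁)) ∧
                  ∃ v', c (i + 1) v' = c (i + 1) (φ d₁) ∧ Cov D c ω v' (g + b))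
                (σ' * Nat.card (K (i + 1))) (by
                  intro b hb
                  by_cases hnf : NF D (K (i + 1)) (g + b - pos c ω (φ d₁))
                  · have h4 := hdc (i + 1) (by omega) his (φ d₁) (g + b) hnf
                    refine ⟨Finset.image (fun y => y - (g + b)) _, ?_,
                      (Nat.cast_le.mpr Finset.card_image_le).trans h4⟩
                    intro h hh hq
                    rw [Finset.mem_image]
                    have hx : g + (b + h) - (g + b) = h := by abel
                    refine ⟨g + (b + h), Finset.mem_filter.mpr ⟨Finset.mem_univ _, ?_, hq.2⟩, hx⟩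
                    rw [hx]
                    exact hh
                  · refine ⟨∅, ?_, ?_⟩
                    · rintro h hh ⟨hn, -⟩
                      exfalso
                      apply hnf
                      refine NF_congr D _ ?_ hn
                      have : g + b - pos c ω (φ d₁) - (g + (b + h) - pos c ω (φ d₁)) = -h := by
                        abel
                      rw [this]
                      exact (K (i + 1)).neg_mem hh
                    · rw [Finset.card_empty]
                      push_cast
                      exact mul_nonneg hσ0 hKpos.le)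
              have hQ : (((B i).filter fun b => NF D (K (i + 1)) (g + b - pos c ω (φ d₁)) ∧
                  ∃ v', c (i + 1) v' = c (i + 1) (φ d₁) ∧ Cov D c ω v' (g + b)).card : ℝ) ≤
                  σ' * (B i).card := by
                refine le_of_mul_le_mul_right (hav.trans (le_of_eq ?_)) hKpos
                ring
              have hH : (((B i).filter fun b => g - pos c ω (φ d₁) + b ∈ D).card : ℝ) ≤
                  (B i).card / 8 := by
                have h6 := hno d₁ hd₁
                rw [hhit] at h6
                have h7 : 8 * (((B i).filter fun b => g - pos c ω (φ d₁) + b ∈ D).card : ℝ) ≤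
                    t * (((B i).filter fun b => g - pos c ω (φ d₁) + b ∈ D).card : ℝ) :=
                  mul_le_mul_of_nonneg_right ht (Nat.cast_nonneg _)
                linarith
              have hS : ((B i).filter fun b => ∃ d ∈ D,
                  Own c f (fun i => Nat.card (K i)) ρ i (φ d₀) (φ d) ∧
                  Cov D c ω (φ d) (g + b)).card ≤
                  ((B i).filter fun b => g - pos c ω (φ d₁) + b ∈ D).card +
                  ((B i).filter fun b => NF D (K (i + 1)) (g + b - pos c ω (φ d₁)) ∧
                  ∃ v', c (i + 1) v' = c (i + 1) (φ d₁) ∧ Cov D c ω v' (g + b)).card := by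
                refine (Finset.card_le_card ?_).trans (Finset.card_union_le _ _)
                intro b hb
                rw [Finset.mem_filter] at hb
                obtain ⟨hbB, d, hd, hownd, hcovd⟩ := hb
                by_cases hnf : NF D (K (i + 1)) (g + b - pos c ω (φ d₁))
                · refine Finset.mem_union_right _ (Finset.mem_filter.mpr
                    ⟨hbB, hnf, φ d, ?_, hcovd⟩)
                  rw [hup _ hownd.1, hup _ hown.1]
                · refine Finset.mem_union_left _ (Finset.mem_filter.mpr ⟨hbB, ?_⟩)
                  rw [← not_full_iff, not_not] at hnf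
                  have h8 := full_sub D _ hnf
                  have : g + b - pos c ω (φ d₁) = g - pos c ω (φ d₁) + b := by abel
                  rwa [this] at h8
              have hS' : (((B i).filter fun b => ∃ d ∈ D,
                  Own c f (fun i => Nat.card (K i)) ρ i (φ d₀) (φ d) ∧
                  Cov D c ω (φ d) (g + b)).card : ℝ) ≤
                  (((B i).filter fun b => g - pos c ω (φ d₁) + b ∈ D).card : ℝ) +
                  (((B i).filter fun b => NF D (K (i + 1)) (g + b - pos c ω (φ d₁)) ∧
                  ∃ v', c (i + 1) v' = c (i + 1) (φ d₁) ∧ Cov D c ω v' (g + b)).card : ℝ) := by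
                exact_mod_cast hS
              have h9 : σ' * (B i).card ≤ 1 / 8 * (B i).card :=
                mul_le_mul_of_nonneg_right hσ8 hBpos.le
              linarith
            · have : ((B i).filter fun b => ∃ d ∈ D,
                  Own c f (fun i => Nat.card (K i)) ρ i (φ d₀) (φ d) ∧
                  Cov D c ω (φ d) (g + b)).card = 0 := by
                rw [Finset.card_eq_zero, Finset.filter_eq_empty_iff]
                rintro b - ⟨d, hd, how, -⟩
                exact hex ⟨d, hd, how⟩
              rw [this]
              push_cast
              linarith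
          have hun : (B i).card ≤ ((B i).filter fun b => ∃ v',
              ¬ Own c f (fun i => Nat.card (K i)) ρ i (φ d₀) v' ∧
              t * (hit D (B i) c ω g v' : ℝ) ≤ (B i).card ∧
              Cov D c ω v' (g + b)).card + ((B i).filter fun b => ∃ d ∈ D,
              Own c f (fun i => Nat.card (K i)) ρ i (φ d₀) (φ d) ∧
              Cov D c ω (φ d) (g + b)).card := by
            refine (Finset.card_le_card ?_).trans (Finset.card_union_le _ _)
            intro b hb
            obtain ⟨d, hd, hcd⟩ := hcov (g + b) (hcon b (hBD b hb))
            by_cases how : Own c f (fun i => Nat.card (K i)) ρ i (φ d₀) (φ d)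
            · exact Finset.mem_union_right _ (Finset.mem_filter.mpr ⟨hb, d, hd, how, hcd⟩)
            · exact Finset.mem_union_left _ (Finset.mem_filter.mpr
                ⟨hb, φ d, how, hno d hd, hcd⟩)
          have hun' : ((B i).card : ℝ) ≤ (((B i).filter fun b => ∃ v',
              ¬ Own c f (fun i => Nat.card (K i)) ρ i (φ d₀) v' ∧
              t * (hit D (B i) c ω g v' : ℝ) ≤ (B i).card ∧
              Cov D c ω v' (g + b)).card : ℝ) + (((B i).filter fun b => ∃ d ∈ D,
              Own c f (fun i => Nat.card (K i)) ρ i (φ d₀) (φ d) ∧
              Cov D c ω (φ d) (g + b)).card : ℝ) := by exact_mod_cast hun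
          have hld' : 2 * (((B i).filter fun b => ∃ v',
              ¬ Own c f (fun i => Nat.card (K i)) ρ i (φ d₀) v' ∧
              t * (hit D (B i) c ω g v' : ℝ) ≤ (B i).card ∧
              Cov D c ω v' (g + b)).card : ℝ) ≤ (B i).card := by exact_mod_cast hld
          linarith
        obtain ⟨d, hd, hP⟩ := hB2
        have hcv := hB1 d hd hP
        have hvg : pos c ω (φ d) - g ∈ K i := by
          have h3 := hposK i (by omega) (φ d) (φ d₀) hcv
          have : pos c ω (φ d) - g = (pos c ω (φ d) - pos c ω (φ d₀)) +
              (pos c ω (φ d₀) - g) := by abel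
          rw [this]
          exact (K i).add_mem h3 hg₀
        have hity : i ≤ ty (φ d) := by
          by_contra hlt
          have h3 := hF.single (φ d) i (by omega) (by omega) (φ d₀) hcv.symm
          rw [← h3] at hlt
          exact hlt hi₀
        have hwK : g - pos c ω (φ d) ∈ K (i + 1) := by
          by_contra hw
          apply hdel d hd
          left
          refine ⟨i, hity, g - pos c ω (φ d), ?_, hw, ?_, ?_⟩
          · have : g - pos c ω (φ d) = -(pos c ω (φ d) - g) := by abel
            rw [this]
            exact (K i).neg_mem hvg
          · set w := g - pos c ω (φ d) with hwdef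
            have hwKi : w ∈ K i := by
              have : w = -(pos c ω (φ d) - g) := by rw [hwdef]; abel
              rw [this]
              exact (K i).neg_mem hvg
            have hav := avg (B i) (K (i + 1)) hBper
              (fun b => w + b ∈ D ∧ w + b ∉ full D (K (i + 1)))
              ((Nat.card (K (i + 1)) : ℝ) / (2 * t)) (by
                intro b hb
                by_cases hfu : w + b ∈ full D (K (i + 1))
                · refine ⟨∅, ?_, ?_⟩
                  · rintro h hh ⟨-, hn⟩
                    exfalso
                    apply hn
                    rw [← add_assoc]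
                    exact full_add D _ hfu hh
                  · rw [Finset.card_empty]
                    push_cast
                    positivity
                · have hnf := (not_full_iff D _ _).mp hfu
                  have h6 := hC.fib_le (i + 1) his (w + b) hnf
                  have h7 : (f (i + 1) : ℝ) ≤ (Nat.card (K (i + 1)) : ℝ) / (2 * t) := by
                    rcases Nat.lt_or_ge (i + 1) s with hlt | hge
                    · have h8 := hC.dens (i + 1) (by omega) hlt
                      have h9 := h2t (i + 1) hlt
                      rw [le_div_iff₀ (by positivity)]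
                      have h10 : (f (i + 1) : ℝ) * (2 * t) ≤
                          ρ (i + 1) * Nat.card (K (i + 1)) * (2 * t) :=
                        mul_le_mul_of_nonneg_right h8 (by positivity)
                      have h11 : (2 * t * ρ (i + 1)) * Nat.card (K (i + 1)) ≤
                          1 * Nat.card (K (i + 1)) :=
                        mul_le_mul_of_nonneg_right h9 hKpos.le
                      linarith
                    · have : i + 1 = s := by omega
                      rw [this, hC.fs]
                      push_cast
                      positivity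
                  refine ⟨Finset.image (fun y => y - (w + b)) (fib D (K (i + 1)) (w + b)), ?_,
                    (Nat.cast_le.mpr (Finset.card_image_le.trans h6)).trans h7⟩
                  intro h hh hq
                  rw [Finset.mem_image]
                  have hx : w + (b + h) - (w + b) = h := by abel
                  refine ⟨w + (b + h), ?_, hx⟩
                  unfold fib
                  rw [Finset.mem_filter]
                  refine ⟨hq.1, ?_⟩
                  rw [hx]
                  exact hh)
            have hQ : (((B i).filter fun b => w + b ∈ D ∧ w + b ∉ full D (K (i + 1))).card : ℝ) ≤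
                (B i).card / (2 * t) := by
              refine le_of_mul_le_mul_right (hav.trans (le_of_eq ?_)) hKpos
              ring
            have hS : ((B i).filter fun b => w + b ∈ D).card ≤ rr (B i) w +
                ((B i).filter fun b => w + b ∈ D ∧ w + b ∉ full D (K (i + 1))).card := by
              unfold rr
              refine (Finset.card_le_card ?_).trans (Finset.card_union_le _ _)
              intro b hb
              rw [Finset.mem_filter] at hb
              by_cases hfu : w + b ∈ full D (K (i + 1))
              · refine Finset.mem_union_left _ (Finset.mem_filter.mpr ⟨hb.1, ?_⟩)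
                rw [add_comm]
                refine hC.Bsat i his' b hb.1 _ hfu ?_
                rw [add_sub_cancel_right]
                exact hwKi
              · exact Finset.mem_union_right _ (Finset.mem_filter.mpr ⟨hb.1, hb.2, hfu⟩)
            have hS' : (((B i).filter fun b => w + b ∈ D).card : ℝ) ≤ (rr (B i) w : ℝ) +
                (((B i).filter fun b => w + b ∈ D ∧ w + b ∉ full D (K (i + 1))).card : ℝ) := by
              exact_mod_cast hS
            rw [hhit] at hP
            have h12 : t * (((B i).filter fun b => w + b ∈ D).card : ℝ) ≤
                t * ((rr (B i) w : ℝ) + (B i).card / (2 * t)) :=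
              mul_le_mul_of_nonneg_left (by linarith) ht0.le
            have h13 : t * ((rr (B i) w : ℝ) + (B i).card / (2 * t)) =
                t * rr (B i) w + (B i).card / 2 := by field_simp
            rw [h13] at h12
            have h14 := hP.trans_le h12
            linarith
          · intro z hz
            obtain ⟨d', -, hd'c⟩ := hcov (g + z) (hcon z (full_sub D _ hz))
            refine ⟨φ d', ?_⟩
            have : pos c ω (φ d) + (g - pos c ω (φ d)) + z = g + z := by abel
            rw [this]
            exact hd'c
        refine ⟨d, hd, ?_, ?_⟩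
        · by_contra hlt
          have htyi : ty (φ d) = i := by omega
          have h3 := (hJ d hd).2
          rw [← hty d hd, htyi] at h3
          unfold lab at h3
          have h4 := (Finset.mem_sdiff.mp h3).1
          have h5 : d - (g - pos c ω (φ d)) ∈ D := by
            have h6 := (mem_full_iff D _ d).mp h4 _ ((K (i + 1)).neg_mem hwK)
            rwa [← sub_eq_add_neg] at h6
          have h6 := hcon _ h5
          apply hA d hd
          have h7 : pos c ω (φ d) + d = g + (d - (g - pos c ω (φ d))) := by abel
          rw [h7]
          exact h6
        · have : pos c ω (φ d) - g = -(g - pos c ω (φ d)) := by abel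
          rw [this]
          exact (K (i + 1)).neg_mem hwK
    obtain ⟨d₀, -, h3, -⟩ := claim s le_rfl
    exact absurd (hF.tyl (φ d₀)) (not_lt.mpr h3)
  refine ⟨Fᶜ, ?_, ?_⟩
  · rw [Set.eq_univ_iff_forall]
    intro g
    obtain ⟨e, he, heF⟩ := hB g
    rw [Set.mem_add]
    refine ⟨g + e, heF, -e, ?_, ?_⟩
    · show - -e ∈ D
      rw [neg_neg]
      exact he
    · abel
  · intro C' hC' huniv
    obtain ⟨cc, hcc, hcc'⟩ := Set.exists_of_ssubset hC'
    have hcD : -cc ∈ D := hcc
    have h3 : pos c ω (φ (-cc)) ∈ Fᶜ + C' := by
      rw [huniv]
      trivial
    rw [Set.mem_add] at h3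
    obtain ⟨y, hy, z, hz, hyz⟩ := h3
    have hzD : -z ∈ D := hC'.1 hz
    by_cases hzc : -z = -cc
    · rw [neg_inj] at hzc
      exact hcc' (hzc ▸ hz)
    · apply hy
      refine ⟨-cc, hcD, -z, hzD, hzc, ?_⟩
      rw [← hyz]
      abel

end Pool.Agent.Helper33.MCE
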